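import Pool.Agent.H26.WGA3

set_option autoImplicit false

open Filter Topology MeasureTheory
open scoped RealInnerProductSpace

namespace Pool.Agent.Results.MP_8ec86e_an.Criterion

noncomputable abbrev H := Lp ℝ 2 (volume : Measure (unitInterval × unitInterval))

def Pi2 : Set H := {g | ∃ u v : Lp ℝ 2 (volume : Measure unitInterval), ‖u‖ = 1 ∧ ‖v‖ = 1 ∧
  g =ᵐ[volume] fun p => u p.1 * v p.2}

def Converges {E : Type} [NormedAddCommGroup E] [InnerProductSpace ℝ E] (D : Set E) (t : ℕ → ℝ) :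
    Prop := ∀ (f₀ : E) (f φ : ℕ → E), f 0 = f₀ →
  (∀ m, φ (m + 1) ∈ D ∧
    t (m + 1) * sSup ((fun g => |⟪f m, g⟫|) '' D) ≤ |⟪f m, φ (m + 1)⟫| ∧
    f (m + 1) = f m - ⟪f m, φ (m + 1)⟫ • φ (m + 1)) →
  Tendsto (fun m => f₀ - f m) atTop (𝓝 f₀)

def InV (x : ℕ → ℝ) : Prop := ∃ q : ℕ → ℕ, q 0 = 0 ∧ StrictMono q ∧
  Summable (fun s => (2 : ℝ) ^ (s + 1) / ((q (s + 1) : ℝ) - q s)) ∧
  Summable fun s => ((2 : ℝ) ^ (s + 1))⁻¹ * ∑ k ∈ Finset.Icc 1 (q (s + 1)), x k ^ 2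

theorem result (t : ℕ → ℝ) (ht : ∀ k, 1 ≤ k → 0 ≤ t k ∧ t k ≤ 1) :
    Converges Pi2 t ↔ ¬ InV t := by
  have e : Pi2 = {g | ∃ u v, ‖u‖ = 1 ∧ ‖v‖ = 1 ∧ g = H26.WGA.tens u v} := Set.ext fun g =>
    exists₂_congr fun u v => and_congr_right fun _ => and_congr_right fun _ =>
      ⟨fun h => Lp.ext (h.trans (H26.WGA.tens_ae u v).symm), fun h => h ▸ H26.WGA.tens_ae u v⟩
  have e2 : InV t ↔ H26.WGA.V fun k => t (k + 1) := by
    simp only [InV, H26.WGA.V, Finset.range_eq_Ico, Finset.sum_Ico_add' (fun k => t k ^ 2),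
      zero_add, Finset.Ico_add_one_right_eq_Icc]
  rw [e2, ← H26.WGA.main fun k => ht (k + 1) k.succ_pos, ← e]
  refine ⟨fun h f φ hf => ?_, fun h f₀ f φ _ hf => ?_⟩
  · simpa using (h _ f (fun m => φ (m - 1)) rfl hf).const_sub (f 0)
  · simpa using (h f (fun m => φ (m + 1)) hf).const_sub f₀

end Pool.Agent.Results.MP_8ec86e_an.Criterion
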